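import Pool.Agent.H32.FCB.CanAux

/-!
The canonical class of `Y`.
-/

open AlgebraicGeometry CategoryTheory MvPolynomial

namespace FCB.YCAN

/-- Exponents of the coordinate `j` of the chart `c`. -/
def ecY (c : ChY) (j : CY) : CY → ℤ := Pi.single j 1 - sigmaY c (degY j)

lemma wtZ_ecY (hD : DY.Laws) (c : ChY) (j : CY) : DY.wtZ (ecY c j) = 0 := by
  have h1 : DY.wtZ (sigmaY c (degY j)) = degY j := hD.σ_wt c (degY j)
  rw [ecY, Cox.wtZ_sub, Cox.wtZ_single, h1, one_smul]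
  exact sub_self _

lemma co_eq (hD : DY.Laws) (c : ChY) (j : CY) : DY.co c j = DY.monoZ (ecY c j) := by
  rw [ecY, sub_eq_add_neg, hD.monoZ_add, Cox.monoZ_single, zpow_one]
  rfl

lemma ecY_off (hD : DY.Laws) (c : ChY) (j l : CY) (hl : l ∉ uY c) :
    ecY c j l = if l = j then 1 else 0 := by
  have h1 : sigmaY c (degY j) l = 0 := by
    by_contra h
    exact hl (hD.σ_supp c (degY j) l h)
  rw [ecY, Pi.sub_apply, h1, sub_zero, Pi.single_apply]

lemma ecY_unit (c : ChY) (j : CY) (hj : j ∈ uY c) : ecY c j = 0 := by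
  obtain ⟨i, k, m⟩ := c
  have h : sigmaY (i, k, m) (degY j) = Pi.single j 1 := by
    funext l
    fin_cases m <;> simp [uY] at hj <;> rcases hj with rfl | rfl | rfl <;>
      fin_cases k <;> cases l <;> simp [sigmaY, vecY, degY, Pi.single_apply, tw]
  rw [ecY, h, sub_self]


lemma expand (_hD : DY.Laws) (c : ChY) (m : CY → ℤ) (hm : DY.wtZ m = 0) :
    m = ∑ j : {j : CY // j ∉ uY c}, m j.1 • ecY c j.1 := by
  have h1 : m = ∑ j, m j • ecY c j := by
    have h2 : (∑ j, m j • (sigmaY c (degY j) : CY → ℤ)) = 0 := by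
      have h3 : DY.σ c (DY.wtZ m) = ∑ j, m j • DY.σ c (DY.deg j) := by
        rw [Cox.wtZ, map_sum]
        simp only [map_zsmul]
      rw [hm, map_zero] at h3
      exact h3.symm
    have h4 : ∀ j, m j • ecY c j = Pi.single j (m j) - m j • (sigmaY c (degY j) : CY → ℤ) := by
      intro j
      rw [ecY, smul_sub]
      congr 1
      funext l
      simp only [Pi.smul_apply, Pi.single_apply, smul_eq_mul]
      split_ifs <;> simp
    simp only [h4]
    rw [Finset.sum_sub_distrib, h2, sub_zero, Finset.univ_sum_single]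
  have h5 : ∑ j, m j • ecY c j = ∑ j ∈ Finset.univ.filter (fun j => j ∉ uY c), m j • ecY c j := by
    rw [Finset.sum_filter]
    refine Finset.sum_congr rfl fun j _ => ?_
    split_ifs with h
    · rw [ecY_unit c j h, smul_zero]
    · rfl
  rw [h5] at h1
  rw [Finset.sum_subtype (p := fun j => j ∉ uY c) _ (by simp)] at h1
  exact h1

/-- the transition matrix -/
def PM (c c' : ChY) : Matrix {j : CY // j ∉ uY c} {j : CY // j ∉ uY c'} ℤ :=
  fun l j => ecY c l.1 j.1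

lemma PM_mul (hD : DY.Laws) (c c' : ChY) : PM c c' * PM c' c = 1 := by
  ext l l'
  rw [Matrix.mul_apply, Matrix.one_apply]
  have h := congrFun (expand hD c' (ecY c l.1) (wtZ_ecY hD c l.1)) l'.1
  rw [ecY_off hD c l.1 l'.1 l'.2, Finset.sum_apply] at h
  simp only [PM]
  simp only [Pi.smul_apply, smul_eq_mul] at h
  rw [← h]
  by_cases hl : l = l'
  · subst hl; simp
  · rw [if_neg hl, if_neg]
    intro h'
    exact hl (Subtype.ext h'.symm)


section field

variable {K : Type} [Field K] [Algebra ℂ K] (χ : (CY → ℤ) → K)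

/-- logarithmic differential -/
noncomputable def dl (m : CY → ℤ) : Ω[K⁄ℂ] := (χ m)⁻¹ • KaehlerDifferential.D ℂ K (χ m)

variable (h0 : χ 0 = 1)
  (h1 : ∀ m n, DY.wtZ m = 0 → DY.wtZ n = 0 → χ (m + n) = χ m * χ n)
  (h2 : ∀ n, DY.wtZ n = 0 → χ n ≠ 0)

include h0 in
lemma dl_zero : dl χ 0 = 0 := by simp [dl, h0]

include h1 h2 in
lemma dl_add (m n : CY → ℤ) (hm : DY.wtZ m = 0) (hn : DY.wtZ n = 0) :
    dl χ (m + n) = dl χ m + dl χ n := by
  rw [dl, h1 m n hm hn, Derivation.leibniz, smul_add, smul_smul, smul_smul, dl, dl]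
  have h3 := h2 m hm
  have h4 := h2 n hn
  rw [add_comm]
  congr 2 <;> field_simp

include h0 h1 h2 in
lemma dl_sum {S : Type} [Fintype S] (a : S → ℤ) (v : S → (CY → ℤ))
    (hv : ∀ s, DY.wtZ (v s) = 0) : dl χ (∑ s, a s • v s) = ∑ s, (a s : K) • dl χ (v s) := by
  let W : (CY → ℤ) →+ (Fin 3 → ℤ) :=
    { toFun := DY.wtZ
      map_zero' := DY.wtZ_zero
      map_add' := DY.wtZ_add }
  let f : W.ker →+ Ω[K⁄ℂ] :=
    { toFun := fun x => dl χ x.1
      map_zero' := dl_zero χ h0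
      map_add' := fun x y => dl_add χ h1 h2 x.1 y.1 x.2 y.2 }
  have h3 := map_sum f (fun s => a s • (⟨v s, hv s⟩ : W.ker)) Finset.univ
  simp only [map_zsmul] at h3
  have h4 : ((∑ s, a s • (⟨v s, hv s⟩ : W.ker) : W.ker) : CY → ℤ) = ∑ s, a s • v s := by
    simp
  have h5 : f (∑ s, a s • (⟨v s, hv s⟩ : W.ker)) = dl χ (∑ s, a s • v s) := by
    show dl χ _ = _
    rw [h4]
  rw [← h5, h3]
  refine Finset.sum_congr rfl fun s _ => ?_
  rw [Int.cast_smul_eq_zsmul]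
  rfl

include h0 h1 h2 in
/-- comparison of two charts -/
lemma det_ch (hl : S_LADY) (hD : DY.Laws) (c c' : ChY) (n : ℕ)
    (e : Fin n ≃ {j : CY // j ∉ uY c}) (e' : Fin n ≃ {j : CY // j ∉ uY c'})
    (b b' : Module.Basis (Fin n) K (Ω[K⁄ℂ]))
    (hb : ∀ l, b l = KaehlerDifferential.D ℂ K (χ (ecY c (e l).1)))
    (hb' : ∀ l, b' l = KaehlerDifferential.D ℂ K (χ (ecY c' (e' l).1))) :
    b'.det b * ∏ l, χ (ecY c' (e' l).1) = ∏ l, χ (ecY c (e l).1) ∨
    b'.det b * ∏ l, χ (ecY c' (e' l).1) = -∏ l, χ (ecY c (e l).1) := by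
  have hw : ∀ l, χ (ecY c (e l).1) ≠ 0 := fun l => h2 _ (wtZ_ecY hD _ _)
  have hw' : ∀ l, χ (ecY c' (e' l).1) ≠ 0 := fun l => h2 _ (wtZ_ecY hD _ _)
  let w : Fin n → Kˣ := fun l => (Units.mk0 _ (hw l))⁻¹
  let w' : Fin n → Kˣ := fun l => (Units.mk0 _ (hw' l))⁻¹
  have h3 := hl K (Ω[K⁄ℂ]) {j : CY // j ∉ uY c} {j : CY // j ∉ uY c'} n
    (fun l => dl χ (ecY c l.1)) (fun l => dl χ (ecY c' l.1)) (PM c c') (PM c' c) e e'
    (b.unitsSMul w) (b'.unitsSMul w') (PM_mul hD c c') (PM_mul hD c' c)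
    (by
      intro l
      rw [expand hD c' (ecY c l.1) (wtZ_ecY hD c l.1),
        dl_sum χ h0 h1 h2 _ _ fun j => wtZ_ecY hD _ _]
      rfl)
    (by
      intro l
      rw [Module.Basis.unitsSMul_apply, hb, Units.smul_def]
      simp [w, dl])
    (by
      intro l
      rw [Module.Basis.unitsSMul_apply, hb', Units.smul_def]
      simp [w', dl])
  rw [Module.Basis.det_unitsSMul] at h3
  have h4 : (⇑(b.unitsSMul w) : Fin n → _) = fun i => (w i : K) • b i := by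
    funext i
    rw [Module.Basis.unitsSMul_apply, Units.smul_def]
  rw [h4, AlternatingMap.smul_apply, AlternatingMap.map_smul_univ] at h3
  have h5 : ((∏ i, w' i)⁻¹ : Kˣ).1 = ∏ l, χ (ecY c' (e' l).1) := by
    simp [w']
  have h6 : (∏ i, (w i : K)) = (∏ l, χ (ecY c (e l).1))⁻¹ := by
    simp [w]
  rw [h5, h6] at h3
  have h7 : (∏ l, χ (ecY c (e l).1)) ≠ 0 := Finset.prod_ne_zero_iff.2 fun l _ => hw l
  rcases h3 with h3 | h3
  · left
    rw [smul_eq_mul, smul_eq_mul] at h3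
    field_simp at h3
    rw [← h3]
    ring
  · right
    rw [smul_eq_mul, smul_eq_mul] at h3
    field_simp at h3
    rw [mul_comm, h3]

end field

lemma cardCY : Fintype.card CY = 14 := by
  have h := sum_CY (fun _ => (1 : ℕ))
  simp at h
  rw [h]

lemma card_off (c : ChY) : Fintype.card {j : CY // j ∉ uY c} = 11 := by
  rw [Fintype.card_subtype_compl (fun j => j ∈ uY c), cardCY, Fintype.card_coe]
  obtain ⟨i, k, m⟩ := c
  fin_cases m <;> simp [uY]

/-- local coordinates -/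
lemma coord (h1 : S_PRSY) (h2 : S_KPOL) (h3 : S_LOCC) (h9 : S_PRE1) (M : Model DY) (c : ChY)
    (x : M.X) (hx : x ∈ M.U c) (n : ℕ) (e : Fin n ≃ {j : CY // j ∉ uY c}) :
    letI : Algebra ℂ M.X.functionField := (ffHom M.str).toAlgebra
    ∃ (U : M.X.Opens) (_ : Nonempty U) (s : Fin n → Γ(M.X, U))
      (b : Module.Basis (Fin n) M.X.functionField (Ω[M.X.functionField⁄ℂ])),
      IsAffineOpen U ∧ x ∈ U ∧ IsCoord M.str U s ∧
      (∀ i, M.emb (M.X.germToFunctionField U (s i)) = DY.co c (e i).1) ∧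
      (∀ i, b i = KaehlerDifferential.D ℂ M.X.functionField (M.X.germToFunctionField U (s i))) := by
  obtain ⟨φ, hφ, hr, hi⟩ := h1 c
  let E : MvPolynomial {j : CY // j ∉ uY c} ℂ ≃ₐ[ℂ] DY.chart c :=
    (AlgEquiv.ofInjective φ hi).trans (Subalgebra.equivOfEq _ _ hr)
  have hE : ∀ P, ((E P : DY.chart c) : FractionRing RY) = φ P := fun P => rfl
  obtain ⟨b, hb⟩ := CanAux.basis_pol h2 E (1 : DY.chart c)
  obtain ⟨U, hU, s, b', k1, k2, k3, k4, k5⟩ := h3 RY CY ChY 3 DY M.toPreModel c x hx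
    (1 : DY.chart c) n (fun i => E (X (e i)))
    (by
      intro h
      exact (h9 RY CY ChY 3 DY M.toPreModel c x hx).1.ne_top ((Ideal.eq_top_iff_one _).2 h))
    ⟨b.reindex e.symm, by
      intro i
      rw [Module.Basis.reindex_apply, Equiv.symm_symm]
      exact hb _⟩
  refine ⟨U, hU, s, b', k1, k2, k3, fun i => ?_, k5⟩
  rw [k4 i, hE, hφ]

end FCB.YCAN

namespace FCB

open YCAN in
theorem ycan (h1 : S_PRSY) (h2 : S_KPOL) (h3 : S_LOCC) (h4 : S_LADY) (h5 : S_PD1) (h6 : S_PD2)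
    (h7 : S_PD3) (h8 : S_PD4) (h9 : S_PRE1) (h10 : S_PRE3) : S_YCAN := by
  intro hD M K
  letI : Algebra ℂ M.X.functionField := (ffHom M.str).toAlgebra
  -- rational functions
  obtain ⟨χ, hχ⟩ := CanAux.exists_chi h10 hD M
  have c0 : χ 0 = 1 := by
    apply M.emb.injective
    rw [hχ 0 DY.wtZ_zero, Cox.monoZ_zero, map_one]
  have c1 : ∀ m n, DY.wtZ m = 0 → DY.wtZ n = 0 → χ (m + n) = χ m * χ n := by
    intro m n hm hn
    apply M.emb.injective
    rw [hχ _ (by rw [Cox.wtZ_add, hm, hn, add_zero]), map_mul, hχ m hm, hχ n hn,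
      hD.monoZ_add]
  have c2 : ∀ n, DY.wtZ n = 0 → χ n ≠ 0 := by
    intro n hn h
    have h' := hχ n hn
    rw [h, map_zero] at h'
    exact hD.monoZ_ne n h'.symm
  -- divisors of the coordinates
  have hdiv : ∀ j : CY, ∃ E : WeilDiv M.X, 0 ≤ E ∧ K.cls E = DY.deg j ∧
      ∀ (p : PrimeDiv M.X) (π : RY) (g : Fin 3 → ℤ), M.PrimeAt p π g →
        E p = multiplicity π (DY.X j) := fun j => K.divh _ _ (DY.X_mem j) (hD.X_ne j)
  choose dv hdv0 hdvc hdvp using hdiv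
  refine ⟨-∑ j, dv j, ?_, ?_⟩
  swap
  · rw [map_neg, map_sum]
    congr 1
    simp only [hdvc]
    rw [sum_CY]
    funext i
    fin_cases i <;> simp [DY, degY, Fin.sum_univ_succ]
  -- base point
  obtain ⟨p₀, -⟩ := h6 RY CY ChY 3 DY hD M (DY.X .z) _ (hD.prime _) (DY.X_mem _)
  obtain ⟨c, hc⟩ := M.cov p₀.1
  have e : Fin 11 ≃ {j : CY // j ∉ uY c} := (Fintype.equivFinOfCardEq (card_off c)).symm
  obtain ⟨U₀, _, s₀, b, -, -, -, k4, k5⟩ := coord h1 h2 h3 h9 M c p₀.1 hc 11 e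
  have hco : ∀ (c : ChY) (j : CY) (f : M.X.functionField), M.emb f = DY.co c j →
      f = χ (ecY c j) := by
    intro c j f hf
    apply M.emb.injective
    rw [hf, co_eq hD, hχ _ (wtZ_ecY hD c j)]
  have hb : ∀ l, b l = KaehlerDifferential.D ℂ M.X.functionField (χ (ecY c (e l).1)) := by
    intro l
    rw [k5 l, hco c _ _ (k4 l)]
  refine CanAux.isCanonical_of M.str _ 10 (∏ l, χ (ecY c (e l).1))
    (Finset.prod_ne_zero_iff.2 fun l _ => c2 _ (wtZ_ecY hD _ _)) b fun p => ?_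
  obtain ⟨c', hc'⟩ := M.cov p.1
  have e' : Fin 11 ≃ {j : CY // j ∉ uY c'} := (Fintype.equivFinOfCardEq (card_off c')).symm
  obtain ⟨U, hU, t, b', r1, r2, r3, r4, r5⟩ := coord h1 h2 h3 h9 M c' p.1 hc' 11 e'
  have hb' : ∀ l, b' l = KaehlerDifferential.D ℂ M.X.functionField (χ (ecY c' (e' l).1)) := by
    intro l
    rw [r5 l, hco c' _ _ (r4 l)]
  refine ⟨U, hU, t, b', r1, r2, r3, r5, ∏ l, χ (ecY c' (e' l).1),
    Finset.prod_ne_zero_iff.2 fun l _ => c2 _ (wtZ_ecY hD _ _),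
    det_ch χ c0 c1 c2 h4 hD c c' 11 e e' b b' hb hb', ?_⟩
  obtain ⟨π, g, hp⟩ := h5 RY CY ChY 3 DY hD M p
  -- the order
  have hprod : ∀ s : Finset (Fin 11), M.emb (∏ l ∈ s, χ (ecY c' (e' l).1)) =
      DY.monoZ (∑ l ∈ s, ecY c' (e' l).1) ∧ DY.wtZ (∑ l ∈ s, ecY c' (e' l).1) = 0 := by
    intro s
    induction s using Finset.induction_on with
    | empty => exact ⟨by simp [Cox.monoZ_zero], by simp [Cox.wtZ_zero]⟩
    | insert l s hl ih =>
      rw [Finset.prod_insert hl, Finset.sum_insert hl, map_mul, ih.1, hD.monoZ_add,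
        hχ _ (wtZ_ecY hD _ _), Cox.wtZ_add, ih.2, wtZ_ecY hD]
      exact ⟨rfl, add_zero _⟩
  obtain ⟨q1, q2⟩ := hprod Finset.univ
  rw [CanAux.ord_mono h8 hD M p π g hp _ _ q2 q1, Finsupp.neg_apply, Finsupp.finsetSum_apply]
  congr 1
  have hv : ∀ j ∈ uY c', multiplicity π (DY.X j) = 0 := by
    intro j hj
    rw [multiplicity_eq_zero]
    exact ((h7 RY CY ChY 3 DY hD M p p π π g g hp hp).2 c').1 hc' j hj
  refine Finset.sum_congr rfl fun j _ => ?_
  rw [hdvp j p π g hp, Finset.sum_apply]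
  by_cases hj : j ∈ uY c'
  · rw [hv j hj]
    simp
  · have h : ∑ l, ecY c' (e' l).1 j = 1 := by
      rw [Finset.sum_eq_single (e'.symm ⟨j, hj⟩)]
      · rw [ecY_off hD c' _ _ hj]
        simp
      · intro l _ hl
        rw [ecY_off hD c' _ _ hj, if_neg]
        intro h
        apply hl
        rw [Equiv.eq_symm_apply]
        exact Subtype.ext h.symm
      · simp
    rw [h, one_mul]

end FCB
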