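import Pool.Agent.H30.FCB.StE
import Pool.Agent.H30.FCB.Basic

/-!
Auxiliary lemmas for the canonical classes of `X` and `Y`.
-/

open AlgebraicGeometry CategoryTheory

namespace FCB.CanAux

section mult

variable {R ι C : Type} {r : ℕ} [CommRing R] [IsDomain R] [UniqueFactorizationMonoid R]
  [Algebra ℂ R] [Fintype ι] {D : Cox R ι C r}

lemma mult_mono (hD : D.Laws) {π : R} (hπ : Prime π) (n : ι → ℕ) :
    (multiplicity π (D.mono n) : ℤ) = ∑ j, (n j : ℤ) * (multiplicity π (D.X j) : ℤ) := by
  classical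
  have hfin : ∀ a : R, a ≠ 0 → FiniteMultiplicity π a := fun a ha =>
    FiniteMultiplicity.of_not_isUnit hπ.not_isUnit ha
  have key : ∀ s : Finset ι, (multiplicity π (∏ j ∈ s, D.X j ^ n j) : ℤ) =
      ∑ j ∈ s, (n j : ℤ) * (multiplicity π (D.X j) : ℤ) := by
    intro s
    induction s using Finset.induction_on with
    | empty =>
      simp only [Finset.prod_empty, Finset.sum_empty, Nat.cast_eq_zero]
      exact multiplicity_eq_zero.2 fun h => hπ.not_isUnit (isUnit_of_dvd_one h)
    | insert j s hj ih =>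
      rw [Finset.prod_insert hj, Finset.sum_insert hj, multiplicity_mul hπ, ← ih,
        FiniteMultiplicity.multiplicity_pow hπ (hfin _ (hD.X_ne j))]
      · push_cast
        rfl
      · refine hfin _ (mul_ne_zero (pow_ne_zero _ (hD.X_ne j)) ?_)
        exact Finset.prod_ne_zero_iff.2 fun j _ => pow_ne_zero _ (hD.X_ne j)
  exact key Finset.univ

omit [CommRing R] [IsDomain R] [UniqueFactorizationMonoid R] [Algebra ℂ R] in
lemma posPart_wt (n : ι → ℤ) (hn : D.wtZ n = 0) :
    D.wt (fun j => (n j).toNat) = D.wt (fun j => (-n j).toNat) := by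
  have h1 : (fun j => ((n j).toNat : ℤ)) - (fun j => ((-n j).toNat : ℤ)) = n := by
    funext j
    simp only [Pi.sub_apply]
    omega
  have h2 := D.wtZ_sub (fun j => ((n j).toNat : ℤ)) (fun j => ((-n j).toNat : ℤ))
  rw [h1, hn] at h2
  rw [← D.wtZ_cast, ← D.wtZ_cast]
  exact (sub_eq_zero.1 h2.symm)

omit [UniqueFactorizationMonoid R] in
lemma monoZ_mul_neg (hD : D.Laws) (n : ι → ℤ) :
    D.monoZ n * algebraMap R (FractionRing R) (D.mono fun j => (-n j).toNat) =
      algebraMap R (FractionRing R) (D.mono fun j => (n j).toNat) := by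
  rw [← Cox.monoZ_cast, ← Cox.monoZ_cast, ← hD.monoZ_add]
  congr 1
  funext j
  simp only [Pi.add_apply]
  omega

/-- the order of a Laurent monomial of degree zero -/
lemma ord_mono (h4 : S_PD4) (hD : D.Laws) (M : Model D) (p : PrimeDiv M.X) (π : R)
    (g : Fin r → ℤ) (hp : M.PrimeAt p π g) (f : M.X.functionField) (n : ι → ℤ)
    (hn : D.wtZ n = 0) (hf : M.emb f = D.monoZ n) :
    Scheme.ord f p.1 = ∑ j, n j * (multiplicity π (D.X j) : ℤ) := by
  have h1 := h4 R ι C r D hD M p π g (D.wt fun j => (n j).toNat) (D.mono fun j => (n j).toNat)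
    (D.mono fun j => (-n j).toNat) f hp (D.mono_mem _)
    (by rw [posPart_wt n hn]; exact D.mono_mem _) (hD.mono_ne _) (hD.mono_ne _)
    (by rw [hf]; exact monoZ_mul_neg hD n)
  rw [h1, mult_mono hD hp.1, mult_mono hD hp.1, ← Finset.sum_sub_distrib]
  refine Finset.sum_congr rfl fun j _ => ?_
  rw [← sub_mul]
  congr 1
  omega

/-- Laurent monomials of degree zero as rational functions. -/
lemma exists_chi [Nonempty C] (h3 : S_PRE3) (hD : D.Laws) (M : Model D) :
    ∃ χ : (ι → ℤ) → M.X.functionField, ∀ n, D.wtZ n = 0 → M.emb (χ n) = D.monoZ n := by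
  have h : ∀ n : ι → ℤ, ∃ f : M.X.functionField, D.wtZ n = 0 → M.emb f = D.monoZ n := by
    intro n
    by_cases hn : D.wtZ n = 0
    · obtain ⟨f, -, hf⟩ := (h3 R ι C r D hD M.toPreModel).2 (D.wt fun j => (n j).toNat)
        (D.mono fun j => (n j).toNat) (D.mono fun j => (-n j).toNat) (D.mono_mem _)
        (by rw [posPart_wt n hn]; exact D.mono_mem _) (hD.mono_ne _) (hD.mono_ne _)
      refine ⟨f, fun _ => ?_⟩
      have h2 := monoZ_mul_neg hD n
      rw [← hf] at h2
      refine (mul_right_cancel₀ ?_ h2).symm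
      rw [Ne, FaithfulSMul.algebraMap_eq_zero_iff]
      exact hD.mono_ne _
    · exact ⟨0, fun h => absurd h hn⟩
  choose χ hχ using h
  exact ⟨χ, hχ⟩

end mult

section ord

variable {R ι C : Type} {r : ℕ} [CommRing R] [IsDomain R]
  [Algebra ℂ R] [Fintype ι] {D : Cox R ι C r}

/-- units have order zero -/
lemma ord_unit (M : PreModel D) (p : PrimeDiv M.X) (f : M.X.functionField)
    (h : M.unitAt p.1 (M.emb f)) : Scheme.ord f p.1 = 0 := by
  obtain ⟨s, hs, h⟩ := h
  have h1 : f = algebraMap _ _ s := M.emb.injective h.symm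
  have hne : f ≠ 0 := by
    rw [h1]
    exact (hs.map (algebraMap _ M.X.functionField)).ne_zero
  rw [Scheme.ord_eq_iff p.2 hne, h1]
  have : Ring.KrullDimLE 1 (M.X.presheaf.stalk p.1) := krullDimLE_of_coheight_le p.2.le
  exact Ring.ordFrac_of_isUnit hs

lemma ord_one {X : Scheme.{0}} [IsIntegral X] [IsLocallyNoetherian X] (x : X) :
    Scheme.ord (1 : X.functionField) x = 0 := by
  have h := Scheme.ord_mul (x := x) (one_ne_zero : (1 : X.functionField) ≠ 0)
    (one_ne_zero : (1 : X.functionField) ≠ 0)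
  rw [one_mul] at h
  omega

lemma ord_inv {X : Scheme.{0}} [IsIntegral X] [IsLocallyNoetherian X] (x : X)
    (f : X.functionField) (hf : f ≠ 0) : Scheme.ord f⁻¹ x = -Scheme.ord f x := by
  have h := Scheme.ord_mul (x := x) hf (inv_ne_zero hf)
  rw [mul_inv_cancel₀ hf, ord_one] at h
  omega

lemma ord_neg {X : Scheme.{0}} [IsIntegral X] [IsLocallyNoetherian X] (x : X)
    (f : X.functionField) : Scheme.ord (-f) x = Scheme.ord f x := by
  by_cases hf : f = 0
  · simp [hf]
  have h1 : Scheme.ord (-1 : X.functionField) x = 0 := by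
    have h := Scheme.ord_mul (x := x) (neg_ne_zero.2 one_ne_zero : (-1 : X.functionField) ≠ 0)
      (neg_ne_zero.2 one_ne_zero : (-1 : X.functionField) ≠ 0)
    rw [neg_mul_neg, one_mul, ord_one] at h
    omega
  rw [← neg_one_mul, Scheme.ord_mul (neg_ne_zero.2 one_ne_zero) hf, h1, zero_add]

/-- criterion for being canonical -/
lemma isCanonical_of {X : Scheme.{0}} [IsIntegral X] [IsLocallyNoetherian X]
    (s : X ⟶ Spec (.of ℂ)) (E : WeilDiv X) (n : ℕ) (G₀ : X.functionField) (hG₀ : G₀ ≠ 0) :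
    letI : Algebra ℂ X.functionField := (ffHom s).toAlgebra
    ∀ (b : Module.Basis (Fin (n + 1)) X.functionField (Ω[X.functionField⁄ℂ])),
    (∀ p : PrimeDiv X, ∃ (U : X.Opens) (_ : Nonempty U) (t : Fin (n + 1) → Γ(X, U))
      (c : Module.Basis (Fin (n + 1)) X.functionField (Ω[X.functionField⁄ℂ])),
      IsAffineOpen U ∧ p.1 ∈ U ∧ IsCoord s U t ∧
      (∀ i, c i = KaehlerDifferential.D ℂ X.functionField (X.germToFunctionField U (t i))) ∧
      ∃ G : X.functionField, G ≠ 0 ∧ (c.det b * G = G₀ ∨ c.det b * G = -G₀) ∧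
        E p = - Scheme.ord G p.1) → IsCanonical s E := by
  letI : Algebra ℂ X.functionField := (ffHom s).toAlgebra
  intro b h
  have hu : ∀ i : Fin (n + 1), IsUnit (if i = 0 then G₀⁻¹ else 1 : X.functionField) := by
    intro i
    split_ifs
    · exact (isUnit_iff_ne_zero.2 (inv_ne_zero hG₀))
    · exact isUnit_one
  refine ⟨n + 1, b.isUnitSMul hu, fun p => ?_⟩
  obtain ⟨U, hU, t, c, h1, h2, h3, h4, G, hG, h5, h6⟩ := h p
  refine ⟨U, hU, t, c, h1, h2, h3, h4, ?_⟩
  have h7 : c.det (b.isUnitSMul hu) = G₀⁻¹ * c.det b := by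
    have h8 : (⇑(b.isUnitSMul hu) : Fin (n + 1) → _) =
        fun i => (if i = 0 then G₀⁻¹ else 1 : X.functionField) • b i := by
      funext i
      exact Module.Basis.isUnitSMul_apply hu i
    rw [h8, AlternatingMap.map_smul_univ, smul_eq_mul]
    congr 1
    rw [Fin.prod_univ_succ]
    simp
  rw [h7, h6, ← ord_inv _ _ hG]
  rcases h5 with h5 | h5
  · have h9 : G₀⁻¹ * c.det b = G⁻¹ := by
      rw [← h5]
      have : c.det b ≠ 0 := by
        intro h
        rw [h, zero_mul] at h5
        exact hG₀ h5.symm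
      field_simp
    rw [h9]
  · have h9 : G₀⁻¹ * c.det b = -G⁻¹ := by
      have h10 : G₀ = -(c.det b * G) := by rw [h5, neg_neg]
      have : c.det b ≠ 0 := by
        intro h
        rw [h, zero_mul, neg_zero] at h10
        exact hG₀ h10
      rw [h10]
      field_simp
    rw [h9, ord_neg]

end ord

section transport

open MvPolynomial

/-- transport of `KPOL` -/
lemma basis_pol (h : S_KPOL) {ι : Type} [Fintype ι] [DecidableEq ι] {A : Type} [CommRing A]
    [Algebra ℂ A] (e : MvPolynomial ι ℂ ≃ₐ[ℂ] A) (a : A) :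
    ∃ b : Module.Basis ι (Localization.Away a) (Ω[Localization.Away a⁄ℂ]), ∀ j,
      b j = KaehlerDifferential.D ℂ (Localization.Away a)
        (algebraMap A (Localization.Away a) (e (X j))) := by
  letI : Algebra (MvPolynomial ι ℂ) (Localization.Away a) :=
    ((algebraMap A (Localization.Away a)).comp e.toRingEquiv.toRingHom).toAlgebra
  haveI : IsScalarTower ℂ (MvPolynomial ι ℂ) (Localization.Away a) := by
    refine IsScalarTower.of_algebraMap_eq fun z => ?_
    show algebraMap ℂ (Localization.Away a) z = algebraMap A (Localization.Away a)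
      (e (algebraMap ℂ (MvPolynomial ι ℂ) z))
    rw [e.commutes, ← IsScalarTower.algebraMap_apply]
  have hl : IsLocalization ((Submonoid.powers a).map e.toRingEquiv.symm)
      (Localization.Away a) :=
    IsLocalization.isLocalization_of_base_ringEquiv (Submonoid.powers a) (Localization.Away a)
      e.toRingEquiv.symm
  obtain ⟨b, hb⟩ := h ι _ (Localization.Away a) hl
  exact ⟨b, hb⟩

/-- transport of `KHYP` -/
lemma basis_hyp (h : S_KHYP) {ι : Type} [Fintype ι] [DecidableEq ι] (F : MvPolynomial ι ℂ)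
    (i : ι) {A : Type} [CommRing A] [Algebra ℂ A]
    (e : (MvPolynomial ι ℂ ⧸ Ideal.span {F}) ≃ₐ[ℂ] A) (a : A)
    (ha : e (Ideal.Quotient.mk _ (pderiv i F)) = a) :
    ∃ b : Module.Basis {j : ι // j ≠ i} (Localization.Away a) (Ω[Localization.Away a⁄ℂ]), ∀ j,
      b j = KaehlerDifferential.D ℂ (Localization.Away a)
        (algebraMap A (Localization.Away a) (e (Ideal.Quotient.mk _ (X j.1)))) := by
  letI : Algebra (MvPolynomial ι ℂ ⧸ Ideal.span {F}) (Localization.Away a) :=
    ((algebraMap A (Localization.Away a)).comp e.toRingEquiv.toRingHom).toAlgebra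
  haveI : IsScalarTower ℂ (MvPolynomial ι ℂ ⧸ Ideal.span {F}) (Localization.Away a) := by
    refine IsScalarTower.of_algebraMap_eq (R := ℂ) (S := MvPolynomial ι ℂ ⧸ Ideal.span {F})
      (A := Localization.Away a) fun z => ?_
    show algebraMap ℂ (Localization.Away a) z = algebraMap A (Localization.Away a)
      (e (algebraMap ℂ (MvPolynomial ι ℂ ⧸ Ideal.span {F}) z))
    rw [e.commutes, ← IsScalarTower.algebraMap_apply]
  have hl : IsLocalization ((Submonoid.powers a).map e.toRingEquiv.symm)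
      (Localization.Away a) :=
    IsLocalization.isLocalization_of_base_ringEquiv (Submonoid.powers a) (Localization.Away a)
      e.toRingEquiv.symm
  have hu : IsUnit (algebraMap A (Localization.Away a)
      (e (Ideal.Quotient.mk _ (pderiv i F)))) := by
    rw [ha]
    exact IsLocalization.Away.algebraMap_isUnit (S := Localization.Away a) a
  obtain ⟨b, hb⟩ := h ι F i _ (Localization.Away a) hl hu
  exact ⟨b, hb⟩

end transport

end FCB.CanAux
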