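import Pool.Agent.H32.FCB.CanAux

/-!
The canonical class of `X`.
-/

open AlgebraicGeometry CategoryTheory MvPolynomial

namespace FCB.XCAN

lemma wtZ_ecX (hD : DX.Laws) (c : ChX) (j : CX) : DX.wtZ (ecX c j) = 0 := by
  have h1 : DX.wtZ (sigmaX c (degX j)) = degX j := hD.σ_wt c (degX j)
  rw [ecX, Cox.wtZ_sub, Cox.wtZ_single, h1, one_smul]
  exact sub_self _

lemma co_eq [IsDomain RX] (hD : DX.Laws) (c : ChX) (j : CX) :
    DX.co c j = DX.monoZ (ecX c j) := by
  rw [ecX, sub_eq_add_neg, hD.monoZ_add, Cox.monoZ_single, zpow_one]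
  rfl

lemma ecX_off (hD : DX.Laws) (c : ChX) (j l : CX) (hl : l ∉ uX c) :
    ecX c j l = if l = j then 1 else 0 := by
  have h1 : sigmaX c (degX j) l = 0 := by
    by_contra h
    exact hl (hD.σ_supp c (degX j) l h)
  rw [ecX, Pi.sub_apply, h1, sub_zero, Pi.single_apply]

lemma cardCX : Fintype.card CX = 18 := by
  have h := sum_CX (fun _ => (1 : ℕ))
  simp at h
  rw [h]

lemma card_off (c : ChX) (hc : c.2.2 ≠ 4) : Fintype.card {j : CX // j ∉ uX c} = 13 := by
  rw [Fintype.card_subtype_compl (fun j => j ∈ uX c), cardCX, Fintype.card_coe]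
  obtain ⟨i, k, m⟩ := c
  fin_cases m <;> simp [uX] at hc ⊢

lemma card_ne (c : ChX) (hc : c.2.2 ≠ 4) (i : {j : CX // j ∉ uX c}) :
    Fintype.card {l : {j : CX // j ∉ uX c} // l ≠ i} = 12 := by
  rw [Fintype.card_subtype_compl (fun l => l = i), card_off c hc, Fintype.card_subtype_eq]

lemma wtZ_expF (k : Fin 6) : DX.wtZ (expF k) = ![0, 0, 0, 0, 2] := by
  fin_cases k <;> simp only [expF, Cox.wtZ_add, Cox.wtZ_single] <;> funext i <;>
    fin_cases i <;> simp [DX, degX]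

/-- local coordinates -/
lemma coord [IsDomain RX] (h1 : S_PRSX) (h2 : S_KHYP) (h3 : S_LOCC) (M : Model DX) (c : ChX)
    (hc : c.2.2 ≠ 4) (x : M.X) (hx : x ∈ M.U c) (i : {j : CX // j ∉ uX c})
    (hi : ∀ a : DX.chart c, (a : FractionRing RX) =
      aeval (fun j : {j : CX // j ∉ uX c} => DX.co c j.1) (pderiv i (FXc c)) →
        a ∉ M.pr c x hx) (n : ℕ)
    (e : Fin n ≃ {l : {j : CX // j ∉ uX c} // l ≠ i}) :
    letI : Algebra ℂ M.X.functionField := (ffHom M.str).toAlgebra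
    (∃ a : DX.chart c, (a : FractionRing RX) =
      aeval (fun j : {j : CX // j ∉ uX c} => DX.co c j.1) (pderiv i (FXc c))) ∧
    ∃ (U : M.X.Opens) (_ : Nonempty U) (s : Fin n → Γ(M.X, U))
      (b : Module.Basis (Fin n) M.X.functionField (Ω[M.X.functionField⁄ℂ])),
      IsAffineOpen U ∧ x ∈ U ∧ IsCoord M.str U s ∧
      (∀ l, M.emb (M.X.germToFunctionField U (s l)) = DX.co c (e l).1.1) ∧
      (∀ l, b l = KaehlerDifferential.D ℂ M.X.functionField (M.X.germToFunctionField U (s l))) := by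
  obtain ⟨φ, hφ, hr, hk⟩ := h1 c hc
  have hφ' : φ = aeval (fun j : {j : CX // j ∉ uX c} => DX.co c j.1) := by
    apply MvPolynomial.algHom_ext
    intro j
    rw [hφ, aeval_X]
  let f₀ : MvPolynomial {j : CX // j ∉ uX c} ℂ →ₐ[ℂ] DX.chart c :=
    φ.codRestrict (DX.chart c) (fun P => by rw [← hr]; exact ⟨P, rfl⟩)
  have hf₀ : ∀ P, ((f₀ P : DX.chart c) : FractionRing RX) = φ P := fun P => rfl
  let f : (MvPolynomial {j : CX // j ∉ uX c} ℂ ⧸ Ideal.span {FXc c}) →ₐ[ℂ] DX.chart c :=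
    Ideal.Quotient.liftₐ (Ideal.span {FXc c}) f₀ (by
      intro P hP
      rw [← hk] at hP
      exact Subtype.ext hP)
  have hf : ∀ P, f (Ideal.Quotient.mk _ P) = f₀ P := fun P => rfl
  have hb : Function.Bijective f := by
    constructor
    · rw [injective_iff_map_eq_zero]
      intro Q hQ
      obtain ⟨P, rfl⟩ := Ideal.Quotient.mk_surjective Q
      rw [hf] at hQ
      rw [Ideal.Quotient.eq_zero_iff_mem, ← hk]
      exact congrArg Subtype.val hQ
    · rintro ⟨a, ha⟩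
      have ha' := ha
      rw [← hr] at ha'
      obtain ⟨P, hP⟩ := ha'
      exact ⟨Ideal.Quotient.mk _ P, Subtype.ext hP⟩
  let E : (MvPolynomial {j : CX // j ∉ uX c} ℂ ⧸ Ideal.span {FXc c}) ≃ₐ[ℂ] DX.chart c :=
    AlgEquiv.ofBijective f hb
  have hE : ∀ P, ((E (Ideal.Quotient.mk _ P) : DX.chart c) : FractionRing RX) = φ P :=
    fun P => rfl
  obtain ⟨b, hb⟩ := CanAux.basis_hyp h2 (FXc c) i E _ rfl
  refine ⟨⟨E (Ideal.Quotient.mk _ (pderiv i (FXc c))), by rw [hE, hφ']⟩, ?_⟩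
  obtain ⟨U, hU, s, b', k1, k2, k3, k4, k5⟩ := h3 RX CX ChX 5 DX M.toPreModel c x hx
    (E (Ideal.Quotient.mk _ (pderiv i (FXc c)))) n
    (fun l => E (Ideal.Quotient.mk _ (X (e l).1)))
    (hi _ (by rw [hE, hφ']))
    ⟨b.reindex e.symm, by
      intro i
      rw [Module.Basis.reindex_apply, Equiv.symm_symm]
      exact hb _⟩
  refine ⟨U, hU, s, b', k1, k2, k3, fun i => ?_, k5⟩
  rw [k4 i, hE, hφ]

end FCB.XCAN

namespace FCB

open XCAN in
theorem xcan (h1 : S_PRSX) (h2 : S_KHYP) (h3 : S_X1CH) (h4 : S_LOCC) (h5 : S_DETX) (h6 : S_KAPP)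
    (h7 : S_PD1) (h8 : S_PD2) (h9 : S_PD3) (h10 : S_PD4) (h11 : S_PRE1) (h12 : S_PRE3) :
    S_XCAN := by
  intro _ _ hD M K
  letI : Algebra ℂ M.X.functionField := (ffHom M.str).toAlgebra
  have hsm : ∀ (z : ℂ) (f : M.X.functionField), M.emb (z • f) = z • M.emb f := by
    intro z f
    rw [Algebra.smul_def, Algebra.smul_def, map_mul]
    congr 1
    exact M.emb_C z
  -- rational functions
  obtain ⟨χ, hχ⟩ := CanAux.exists_chi h12 hD M
  have c0 : χ 0 = 1 := by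
    apply M.emb.injective
    rw [hχ 0 DX.wtZ_zero, Cox.monoZ_zero, map_one]
  have c1 : ∀ m n, DX.wtZ m = 0 → DX.wtZ n = 0 → χ (m + n) = χ m * χ n := by
    intro m n hm hn
    apply M.emb.injective
    rw [hχ _ (by rw [Cox.wtZ_add, hm, hn, add_zero]), map_mul, hχ m hm, hχ n hn,
      hD.monoZ_add]
  have c2 : ∀ n, DX.wtZ n = 0 → χ n ≠ 0 := by
    intro n hn h
    have h' := hχ n hn
    rw [h, map_zero] at h'
    exact hD.monoZ_ne n h'.symm
  have hwF : ∀ k, DX.wtZ (expF k - expF 0) = 0 := by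
    intro k
    rw [Cox.wtZ_sub, wtZ_expF, wtZ_expF, sub_self]
  have hF0 : DX.monoZ (expF 0) ≠ 0 := hD.monoZ_ne _
  have hFk : ∀ k, M.emb (χ (expF k - expF 0)) * DX.monoZ (expF 0) = DX.monoZ (expF k) := by
    intro k
    rw [hχ _ (hwF k), ← hD.monoZ_add, sub_add_cancel]
  have c3 : ∑ k, cF k • χ (expF k - expF 0) = 0 := by
    apply M.emb.injective
    apply mul_right_cancel₀ hF0
    rw [map_zero, zero_mul, map_sum, Finset.sum_mul, ← h6.1]
    refine Finset.sum_congr rfl fun k _ => ?_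
    rw [hsm, smul_mul_assoc, hFk]
  have hkap : ∀ j, M.emb (kap χ j) * DX.monoZ (expF 0) =
      ∑ k, cF k • ((expF k j : FractionRing RX) * DX.monoZ (expF k)) := by
    intro j
    rw [kap, map_sum, Finset.sum_mul]
    refine Finset.sum_congr rfl fun k _ => ?_
    rw [hsm, smul_mul_assoc, map_mul, mul_assoc, hFk, map_intCast]
  -- divisors of the coordinates
  have hdiv : ∀ j : CX, ∃ E : WeilDiv M.X, 0 ≤ E ∧ K.cls E = DX.deg j ∧
      ∀ (p : PrimeDiv M.X) (π : RX) (g : Fin 5 → ℤ), M.PrimeAt p π g →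
        E p = multiplicity π (DX.X j) := fun j => K.divh _ _ (DX.X_mem j) (hD.X_ne j)
  choose dv hdv0 hdvc hdvp using hdiv
  refine ⟨2 • dv .x - ∑ j, dv j, ?_, ?_⟩
  swap
  · rw [map_sub, map_sum, map_nsmul]
    simp only [hdvc]
    rw [sum_CX]
    funext i
    fin_cases i <;> simp [DX, degX, Fin.sum_univ_succ]
  have hco : ∀ (c : ChX) (j : CX) (f : M.X.functionField), M.emb f = DX.co c j →
      f = χ (ecX c j) := by
    intro c j f hf
    apply M.emb.injective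
    rw [hf, co_eq hD, hχ _ (wtZ_ecX hD c j)]
  -- data at a prime divisor
  have data : ∀ p : PrimeDiv M.X, ∃ (c : ChX) (i : {j : CX // j ∉ uX c})
      (e : Fin 12 ≃ {l : {j : CX // j ∉ uX c} // l ≠ i}) (U : M.X.Opens) (_ : Nonempty U)
      (s : Fin 12 → Γ(M.X, U))
      (b : Module.Basis (Fin 12) M.X.functionField (Ω[M.X.functionField⁄ℂ]))
      (u : M.X.functionField),
      c.2.2 ≠ 4 ∧ p.1 ∈ M.U c ∧ IsAffineOpen U ∧ p.1 ∈ U ∧ IsCoord M.str U s ∧
      (∀ l, b l = KaehlerDifferential.D ℂ M.X.functionField (M.X.germToFunctionField U (s l))) ∧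
      (∀ l, b l = KaehlerDifferential.D ℂ M.X.functionField (χ (ecX c (e l).1.1))) ∧
      M.unitAt p.1 (M.emb u) ∧ u ≠ 0 ∧
      M.emb (kap χ i.1) * DX.monoZ (expF 0) =
        DX.monoZ (ecX c i.1) * M.emb u * DX.monoZ (sigmaX c ![0, 0, 0, 0, 2]) := by
    intro p
    obtain ⟨c, hpc, i, hc, hi⟩ := h3 hD M p
    have e : Fin 12 ≃ {l : {j : CX // j ∉ uX c} // l ≠ i} :=
      (Fintype.equivFinOfCardEq (card_ne c hc i)).symm
    obtain ⟨⟨a, ha⟩, U, hU, s, b, k1, k2, k3, k4, k5⟩ :=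
      coord h1 h2 h4 M c hc p.1 hpc i hi 12 e
    have hau : M.unitAt p.1 (a : FractionRing RX) := by
      by_contra h
      exact hi a ha (((h11 RX CX ChX 5 DX M.toPreModel c p.1 hpc).2.2.1 a).2 h)
    obtain ⟨s', hs', hsa⟩ := hau
    refine ⟨c, i, e, U, hU, s, b, algebraMap _ _ s', hc, hpc, k1, k2, k3, k5, ?_,
      ⟨s', hs', rfl⟩, (hs'.map (algebraMap _ M.X.functionField)).ne_zero, ?_⟩
    · intro l
      rw [k5 l, hco c _ _ (k4 l)]
    · rw [hkap, h6.2 c hc i, hsa, ha, co_eq hD]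
  have hkne : ∀ (c : ChX) (i : CX) (u : M.X.functionField), u ≠ 0 →
      M.emb (kap χ i) * DX.monoZ (expF 0) =
        DX.monoZ (ecX c i) * M.emb u * DX.monoZ (sigmaX c ![0, 0, 0, 0, 2]) →
      kap χ i ≠ 0 := by
    intro c i u hu h h'
    rw [h', map_zero, zero_mul] at h
    exact (mul_ne_zero (mul_ne_zero (hD.monoZ_ne _) (by simpa using hu)) (hD.monoZ_ne _)) h.symm
  -- base point
  obtain ⟨p₀, -⟩ := h8 RX CX ChX 5 DX hD M (DX.X .z) _ (hD.prime _) (DX.X_mem _)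
  obtain ⟨c, i, e, -, -, -, b, u, hc, -, -, -, -, -, hb, -, hu, hk⟩ := data p₀
  have hG : ∀ (c : ChX) (i : {j : CX // j ∉ uX c})
      (e : Fin 12 ≃ {l : {j : CX // j ∉ uX c} // l ≠ i}),
      (∏ l, χ (ecX c (e l).1.1)) ≠ 0 := fun c i e =>
    Finset.prod_ne_zero_iff.2 fun l _ => c2 _ (wtZ_ecX hD _ _)
  refine CanAux.isCanonical_of M.str _ 11 (kap χ i.1 * ∏ l, χ (ecX c (e l).1.1))
    (mul_ne_zero (hkne _ _ _ hu hk) (hG c i e)) b fun p => ?_
  obtain ⟨c', i', e', U, hU, t, b', u', hc', hpc', r1, r2, r3, r4, hb', huu, hu', hk'⟩ := data p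
  refine ⟨U, hU, t, b', r1, r2, r3, r4, kap χ i'.1 * ∏ l, χ (ecX c' (e' l).1.1),
    mul_ne_zero (hkne _ _ _ hu' hk') (hG c' i' e'), ?_, ?_⟩
  · have h := h5 M.X.functionField χ c0 c1 c2 c3 c c' hc hc' i i' 12 e e' b b' hb hb'
      (hkne _ _ _ hu' hk')
    have h' : b'.det b * (kap χ i'.1 * ∏ l, χ (ecX c' (e' l).1.1)) =
        kap χ i'.1 * b'.det b * ∏ l, χ (ecX c' (e' l).1.1) := by ring
    rw [h']
    exact h
  obtain ⟨π, g, hp⟩ := h7 RX CX ChX 5 DX hD M p
  have hprod : ∀ s : Finset (Fin 12), M.emb (∏ l ∈ s, χ (ecX c' (e' l).1.1)) =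
      DX.monoZ (∑ l ∈ s, ecX c' (e' l).1.1) ∧ DX.wtZ (∑ l ∈ s, ecX c' (e' l).1.1) = 0 := by
    intro s
    induction s using Finset.induction_on with
    | empty => exact ⟨by simp [Cox.monoZ_zero], by simp [Cox.wtZ_zero]⟩
    | insert l s hl ih =>
      rw [Finset.prod_insert hl, Finset.sum_insert hl, map_mul, ih.1, hD.monoZ_add,
        hχ _ (wtZ_ecX hD _ _), Cox.wtZ_add, ih.2, wtZ_ecX hD]
      exact ⟨rfl, add_zero _⟩
  obtain ⟨q1, q2⟩ := hprod Finset.univ
  set m : CX → ℤ := ecX c' i'.1 + sigmaX c' ![0, 0, 0, 0, 2] - expF 0 +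
    ∑ l, ecX c' (e' l).1.1 with hm
  have hmw : DX.wtZ m = 0 := by
    have hs : DX.wtZ (sigmaX c' ![0, 0, 0, 0, 2]) = ![0, 0, 0, 0, 2] := hD.σ_wt c' _
    rw [hm, Cox.wtZ_add, q2, Cox.wtZ_sub, Cox.wtZ_add, wtZ_ecX hD, hs, wtZ_expF, zero_add,
      sub_self, add_zero]
  have hGm : kap χ i'.1 * ∏ l, χ (ecX c' (e' l).1.1) = χ m * u' := by
    apply M.emb.injective
    apply mul_right_cancel₀ hF0
    have hm0 : M.emb (χ m) * DX.monoZ (expF 0) = DX.monoZ (ecX c' i'.1) *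
        DX.monoZ (sigmaX c' ![0, 0, 0, 0, 2]) * DX.monoZ (∑ l, ecX c' (e' l).1.1) := by
      rw [hχ m hmw, ← hD.monoZ_add, ← hD.monoZ_add, ← hD.monoZ_add]
      congr 1
      rw [hm]
      abel
    have e1 : M.emb (kap χ i'.1 * ∏ l, χ (ecX c' (e' l).1.1)) * DX.monoZ (expF 0) =
        (M.emb (kap χ i'.1) * DX.monoZ (expF 0)) * DX.monoZ (∑ l, ecX c' (e' l).1.1) := by
      rw [map_mul, q1]
      ring
    have e2 : M.emb (χ m * u') * DX.monoZ (expF 0) =
        (M.emb (χ m) * DX.monoZ (expF 0)) * M.emb u' := by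
      rw [map_mul]
      ring
    rw [e1, e2, hk', hm0]
    ring
  rw [hGm, Scheme.ord_mul (c2 _ hmw) hu', CanAux.ord_unit M.toPreModel p u' huu, add_zero,
    CanAux.ord_mono h10 hD M p π g hp _ _ hmw (hχ m hmw)]
  have hv : ∀ j ∈ uX c', multiplicity π (DX.X j) = 0 := by
    intro j hj
    rw [multiplicity_eq_zero]
    exact ((h9 RX CX ChX 5 DX hD M p p π π g g hp hp).2 c').1 hpc' j hj
  have hmj : ∀ j, m j * (multiplicity π (DX.X j) : ℤ) =
      (multiplicity π (DX.X j) : ℤ) - expF 0 j * (multiplicity π (DX.X j) : ℤ) := by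
    intro j
    by_cases hj : j ∈ uX c'
    · rw [hv j hj]
      simp
    · have hs : sigmaX c' ![0, 0, 0, 0, 2] j = 0 := by
        by_contra h
        exact hj (hD.σ_supp c' _ j h)
      have h : ecX c' i'.1 j + (∑ l, ecX c' (e' l).1.1) j = 1 := by
        rw [Finset.sum_apply, ecX_off hD c' _ _ hj]
        by_cases hji : j = i'.1
        · rw [if_pos hji, Finset.sum_eq_zero, add_zero]
          intro l _
          rw [ecX_off hD c' _ _ hj, if_neg]
          intro h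
          exact (e' l).2 (Subtype.ext (h.symm.trans hji))
        · have hne : (⟨j, hj⟩ : {j : CX // j ∉ uX c'}) ≠ i' := fun h =>
            hji (congrArg Subtype.val h)
          rw [if_neg hji, zero_add, Finset.sum_eq_single (e'.symm ⟨⟨j, hj⟩, hne⟩)]
          · rw [ecX_off hD c' _ _ hj]
            simp
          · intro l _ hl
            rw [ecX_off hD c' _ _ hj, if_neg]
            intro h
            apply hl
            rw [Equiv.eq_symm_apply]
            exact Subtype.ext (Subtype.ext h.symm)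
          · simp
      have h' : m j = 1 - expF 0 j := by
        rw [hm]
        simp only [Pi.add_apply, Pi.sub_apply]
        rw [hs]
        linarith
      rw [h']
      ring
  simp only [hmj]
  rw [Finset.sum_sub_distrib]
  have hx : ∑ j, expF 0 j * (multiplicity π (DX.X j) : ℤ) =
      2 * (multiplicity π (DX.X .x) : ℤ) := by
    rw [Finset.sum_eq_single CX.x]
    · simp [expF]
    · intro j _ hj
      simp [expF, Pi.single_apply, hj]
    · simp
  rw [hx, Finsupp.sub_apply, Finsupp.smul_apply, Finsupp.finsetSum_apply, hdvp .x p π g hp]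
  have hs : ∑ j, (dv j) p = ∑ j, (multiplicity π (DX.X j) : ℤ) :=
    Finset.sum_congr rfl fun j _ => hdvp j p π g hp
  rw [hs, nsmul_eq_mul]
  push_cast
  ring

end FCB
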